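import Pool.Agent.Lib.MP_0b6b0e_gt.ZB.H17.Tools

/-!
Module NCB: gauge functions without common subgradients of `P` and `P (-·)` are dense.
-/

set_option autoImplicit false

open Set Filter Topology MeasureTheory Module

open scoped InnerProductSpace NNReal ENNReal

namespace Pool.Agent.Lib.MP_0b6b0e_gt.ZB.H17

section

variable {E : Type*} [NormedAddCommGroup E] [InnerProductSpace ℝ E]

/-- Second differences on the unit sphere. -/
def SD (F : E → ℝ) (C : ℝ) : Prop :=
  ∀ x h : E, ‖x‖ = 1 → F (x + h) + F (x - h) - 2 * F x ≤ C * ‖h‖ ^ 2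

omit [InnerProductSpace ℝ E] in
lemma sd_rf {F : E → ℝ} {C : ℝ} (h : SD F C) : SD (rf F) C := by
  intro x k hx
  have h1 := h (-x) k (by rwa [norm_neg])
  simp only [rf, neg_add, neg_sub]
  have h2 : -x - k = -x + -k := sub_eq_add_neg _ _
  have h3 : -x + k = k - x := by abel
  rw [h2, h3] at h1
  linarith

/-- Upper expansion at a point of the unit sphere. -/
lemma upper_exp {F : E → ℝ} {C : ℝ} (hF : SD F C) {x : E} (hx : ‖x‖ = 1) {l : E →L[ℝ] ℝ}
    (hl : ∀ y, l y ≤ F y) (hlx : l x = F x) (h : E) : F (x + h) ≤ F x + l h + C * ‖h‖ ^ 2 := by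
  have h1 := hF x h hx
  have h2 := hl (x - h)
  rw [map_sub, hlx] at h2
  linarith

/-- Subgradients at points of the unit sphere depend Lipschitz continuously on the point. -/
lemma sub_lip {F : E → ℝ} {C : ℝ} (hC : 0 ≤ C) (hF : SD F C) {x y : E} (hx : ‖x‖ = 1)
    {l m : E →L[ℝ] ℝ} (hl : ∀ z, l z ≤ F z) (hlx : l x = F x) (hm : ∀ z, m z ≤ F z)
    (hmy : m y = F y) (hxy : x ≠ y) : ‖m - l‖ ≤ 4 * C * ‖x - y‖ := by
  have hd : 0 < ‖x - y‖ := norm_pos_iff.2 (sub_ne_zero.2 hxy)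
  have h1 : ‖m - l‖ ≤ (4 * C * ‖x - y‖ ^ 2) / ‖x - y‖ := by
    refine norm_le_of_le hd fun k hk => ?_
    have h2 := hm (y + k)
    rw [map_add, hmy] at h2
    have h3 := upper_exp hF hx hl hlx (y - x + k)
    have h4 : x + (y - x + k) = y + k := by abel
    rw [h4] at h3
    have h5 := hl y
    have h6 : l (y - x + k) = l y - l x + l k := by rw [map_add, map_sub]
    rw [h6, hlx] at h3
    have h7 : ‖y - x + k‖ ≤ 2 * ‖x - y‖ := by
      refine (norm_add_le _ _).trans ?_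
      rw [norm_sub_rev y x]
      linarith
    have h8 : ‖y - x + k‖ ^ 2 ≤ (2 * ‖x - y‖) ^ 2 :=
      pow_le_pow_left₀ (norm_nonneg _) h7 2
    have h9 : C * ‖y - x + k‖ ^ 2 ≤ C * (2 * ‖x - y‖) ^ 2 := mul_le_mul_of_nonneg_left h8 hC
    change m k - l k ≤ _
    nlinarith
  have h10 : (4 * C * ‖x - y‖ ^ 2) / ‖x - y‖ = 4 * C * ‖x - y‖ := by
    field_simp
  rwa [h10] at h1

/-- Uniqueness of the subgradient at a point of the unit sphere. -/
lemma sub_unique {F : E → ℝ} {C : ℝ} (hC : 0 ≤ C) (hF : SD F C) {x : E} (hx : ‖x‖ = 1)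
    {l m : E →L[ℝ] ℝ} (hl : ∀ z, l z ≤ F z) (hlx : l x = F x) (hm : ∀ z, m z ≤ F z)
    (hmx : m x = F x) : m = l := by
  have h1 : ∀ t : ℝ, 0 < t → ‖m - l‖ ≤ C * t := by
    intro t ht
    have h2 : ‖m - l‖ ≤ (C * t ^ 2) / t := by
      refine norm_le_of_le ht fun k hk => ?_
      have h3 := hm (x + k)
      rw [map_add, hmx] at h3
      have h4 := upper_exp hF hx hl hlx k
      have h5 : ‖k‖ ^ 2 ≤ t ^ 2 := pow_le_pow_left₀ (norm_nonneg _) hk 2
      have h6 : C * ‖k‖ ^ 2 ≤ C * t ^ 2 := mul_le_mul_of_nonneg_left h5 hC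
      change m k - l k ≤ _
      linarith
    have h7 : (C * t ^ 2) / t = C * t := by field_simp
    rwa [h7] at h2
  have h8 : ‖m - l‖ ≤ 0 := by
    refine le_of_forall_pos_le_add fun e he => ?_
    have h9 := h1 (e / (C + 1)) (by positivity)
    have h10 : C * (e / (C + 1)) ≤ e := by
      rw [mul_div_assoc', div_le_iff₀ (by positivity)]
      nlinarith
    linarith
  exact sub_eq_zero.1 (norm_le_zero_iff.1 h8)

lemma isG_add {P : E → ℝ} (hP : IsG P) {c : E} {a : ℝ} (ha : ∀ x, a * ‖x‖ ≤ P x)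
    (hc : ‖c‖ < a) : IsG (fun x => P x + ⟪c, x⟫_ℝ) := by
  obtain ⟨C, hC, hu⟩ := hP.upper
  refine ⟨fun x y => ?_, fun t ht x => ?_, ⟨a - ‖c‖, by linarith, fun x => ?_⟩,
    ⟨C + ‖c‖, by positivity, fun x => ?_⟩⟩
  · rw [inner_add_right]
    have := hP.add x y
    linarith
  · rw [real_inner_smul_right, hP.smul t ht x]
    ring
  · have h1 := ha x
    have h2 := (abs_le.1 (abs_real_inner_le_norm c x)).1
    nlinarith
  · have h1 := hu x
    have h2 := (abs_le.1 (abs_real_inner_le_norm c x)).2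
    nlinarith

end

theorem ncb : MEStatement → DVStatement → NCBStatement := by
  intro hME hDV n _ P hP ε hε
  obtain ⟨hDV1, -, -⟩ := hDV
  obtain ⟨P1, hP1, hP1P, C, hC, hSD⟩ := hME n P hP (ε / 2) (by positivity)
  have hSD' : SD P1 C := hSD
  have hQ1 := isG_rf hP1
  have hSDQ := sd_rf hSD'
  choose D hD hDx using hDV1 n P1 hP1
  choose D' hD' hDx' using hDV1 n (rf P1) hQ1
  obtain ⟨a, ha, hal⟩ := hP1.lower
  -- the map g
  set g : EuclideanSpace ℝ (Fin n) → EuclideanSpace ℝ (Fin n) := fun x =>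
    (InnerProductSpace.toDual ℝ (EuclideanSpace ℝ (Fin n))).symm
      ((1 / 2 : ℝ) • (D' x - D x)) with hg
  have hlip : LipschitzOnWith (Real.toNNReal (4 * C)) g (Metric.sphere 0 1) := by
    refine LipschitzOnWith.of_dist_le_mul fun x hx y hy => ?_
    rw [mem_sphere_zero_iff_norm] at hx hy
    rw [Real.coe_toNNReal _ (by positivity), dist_eq_norm, dist_eq_norm]
    rcases eq_or_ne x y with rfl | hxy
    · simp
    have h1 := sub_lip hC.le hSD' hx (hD x) (hDx x) (hD y) (hDx y) hxy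
    have h2 := sub_lip hC.le hSDQ hx (hD' x) (hDx' x) (hD' y) (hDx' y) hxy
    have h3 : g x - g y = (InnerProductSpace.toDual ℝ (EuclideanSpace ℝ (Fin n))).symm
        ((1 / 2 : ℝ) • ((D y - D x) - (D' y - D' x))) := by
      rw [hg]
      simp only
      rw [← map_sub, ← smul_sub]
      congr 2
      abel
    rw [h3, LinearIsometryEquiv.norm_map, norm_smul]
    have h4 : ‖(1 / 2 : ℝ)‖ = 1 / 2 := by norm_num
    rw [h4]
    have h5 := norm_sub_le (D y - D x) (D' y - D' x)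
    linarith
  -- its image is a null set
  have hnull : (μH[finrank ℝ (EuclideanSpace ℝ (Fin n))] :
      Measure (EuclideanSpace ℝ (Fin n))) (g '' Metric.sphere 0 1) = 0 := by
    have h1 := hlip.hausdorffMeasure_image_le
      (d := (finrank ℝ (EuclideanSpace ℝ (Fin n)) : ℝ)) (Nat.cast_nonneg _)
    rw [Measure.addHaar_sphere_of_ne_zero _ _ one_ne_zero, mul_zero] at h1
    exact le_antisymm h1 bot_le
  set τ : ℝ := min (ε / 2) (a / 2) with hτ
  have hτ0 : 0 < τ := lt_min (by positivity) (by positivity)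
  obtain ⟨c, hc1, hc2⟩ : ∃ c ∈ Metric.ball (0 : EuclideanSpace ℝ (Fin n)) τ,
      c ∉ g '' Metric.sphere 0 1 := by
    by_contra hcon
    push Not at hcon
    have h1 : Metric.ball (0 : EuclideanSpace ℝ (Fin n)) τ ⊆ g '' Metric.sphere 0 1 := hcon
    have h2 := (measure_mono h1).trans hnull.le
    have h3 := Metric.measure_ball_pos (μH[finrank ℝ (EuclideanSpace ℝ (Fin n))] :
      Measure (EuclideanSpace ℝ (Fin n))) 0 hτ0
    exact absurd h2 (not_le.2 h3)
  rw [mem_ball_zero_iff] at hc1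
  have hca : ‖c‖ < a := by
    have h1 := min_le_right (ε / 2) (a / 2)
    linarith
  have hcε : ‖c‖ ≤ ε / 2 := (hc1.trans_le (min_le_left _ _)).le
  refine ⟨fun x => P1 x + ⟪c, x⟫_ℝ, isG_add hP1 hal hca, fun x => ?_, ?_⟩
  · have h1 := hP1P x
    have h2 := (abs_real_inner_le_norm c x).trans
      (mul_le_mul_of_nonneg_right hcε (norm_nonneg x))
    have h3 : P1 x + ⟪c, x⟫_ℝ - P x = (P1 x - P x) + ⟪c, x⟫_ℝ := by ring
    rw [h3]
    refine (abs_add_le _ _).trans ?_
    linarith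
  · -- no common subgradient
    intro x hx l hl hlx hl' hlx'
    have hxn : 0 < ‖x‖ := norm_pos_iff.2 hx
    set y : EuclideanSpace ℝ (Fin n) := ‖x‖⁻¹ • x with hy
    have hy1 : ‖y‖ = 1 := by
      rw [hy, norm_smul, norm_inv, norm_norm, inv_mul_cancel₀ hxn.ne']
    have hinv : 0 ≤ ‖x‖⁻¹ := by positivity
    -- the two subgradients
    have h1 : D y = l - innerSL ℝ c := by
      refine (sub_unique hC.le hSD' hy1 (hD y) (hDx y) (fun z => ?_) ?_).symm
      · have h := hl z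
        change l z - ⟪c, z⟫_ℝ ≤ P1 z
        linarith
      · change l y - ⟪c, y⟫_ℝ = P1 y
        rw [hy, map_smul, real_inner_smul_right, hP1.smul _ hinv, hlx, smul_eq_mul]
        ring
    have h2 : D' y = l + innerSL ℝ c := by
      refine (sub_unique hC.le hSDQ hy1 (hD' y) (hDx' y) (fun z => ?_) ?_).symm
      · have h := hl' z
        simp only [inner_neg_right] at h
        change l z + ⟪c, z⟫_ℝ ≤ P1 (-z)
        linarith
      · change l y + ⟪c, y⟫_ℝ = P1 (-y)
        simp only [inner_neg_right] at hlx'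
        rw [hy, map_smul, real_inner_smul_right, ← smul_neg, hP1.smul _ hinv, hlx',
          smul_eq_mul]
        ring
    refine hc2 ⟨y, by simpa using hy1, ?_⟩
    rw [hg]
    simp only
    rw [h1, h2, LinearIsometryEquiv.symm_apply_eq]
    ext z
    change (1 / 2 : ℝ) * ((l z + ⟪c, z⟫_ℝ) - (l z - ⟪c, z⟫_ℝ)) = ⟪c, z⟫_ℝ
    ring

end Pool.Agent.Lib.MP_0b6b0e_gt.ZB.H17
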