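import Pool.Agent.Lib.MP_0b6b0e_gt.ZB.Defs

/-!
Small tools for the modules RK and NCB.
-/

set_option autoImplicit false

open Set Filter Topology MeasureTheory

open scoped InnerProductSpace

namespace Pool.Agent.Lib.MP_0b6b0e_gt.ZB.H17

variable {E : Type*} [NormedAddCommGroup E] [InnerProductSpace ℝ E]

lemma isG_rf {P : E → ℝ} (h : IsG P) : IsG (rf P) := by
  obtain ⟨c, hc, hl⟩ := h.lower
  obtain ⟨C, hC, hu⟩ := h.upper
  refine ⟨fun x y => ?_, fun c hc x => ?_, ⟨c, hc, fun x => ?_⟩, ⟨C, hC, fun x => ?_⟩⟩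
  · simp only [rf, neg_add]
    exact h.add _ _
  · simp only [rf, ← smul_neg]
    exact h.smul c hc _
  · simpa [rf] using hl (-x)
  · simpa [rf] using hu (-x)

lemma smooth_rf {P : E → ℝ} (h : Smooth P) : Smooth (rf P) := by
  intro x hx
  have h1 : DifferentiableAt ℝ P (-x) := h (-x) (neg_ne_zero.2 hx)
  exact h1.comp x (differentiable_id.neg.differentiableAt)

lemma norm_le_of_le {φ : E →L[ℝ] ℝ} {ρ c : ℝ} (hρ : 0 < ρ) (h : ∀ k, ‖k‖ ≤ ρ → φ k ≤ c) :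
    ‖φ‖ ≤ c / ρ := by
  have hc : 0 ≤ c := by simpa using h 0 (by simpa using hρ.le)
  refine φ.opNorm_le_bound (by positivity) fun x => ?_
  rcases eq_or_ne x 0 with rfl | hx
  · simp
  have hx' : 0 < ‖x‖ := norm_pos_iff.2 hx
  have hq : 0 ≤ ρ / ‖x‖ := by positivity
  have h1 := h ((ρ / ‖x‖) • x)
    (by rw [norm_smul, Real.norm_of_nonneg hq, div_mul_cancel₀ _ hx'.ne'])
  have h2 := h ((-(ρ / ‖x‖)) • x)
    (by rw [norm_smul, norm_neg, Real.norm_of_nonneg hq, div_mul_cancel₀ _ hx'.ne'])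
  rw [map_smul, smul_eq_mul] at h1 h2
  have h3 : (ρ / ‖x‖) * |φ x| ≤ c := by
    rcases le_or_gt 0 (φ x) with h0 | h0
    · rwa [abs_of_nonneg h0]
    · rw [abs_of_neg h0]
      linarith
  rw [Real.norm_eq_abs]
  have h4 : |φ x| = ((ρ / ‖x‖) * |φ x|) * (‖x‖ / ρ) := by
    field_simp
  rw [h4]
  calc (ρ / ‖x‖ * |φ x|) * (‖x‖ / ρ) ≤ c * (‖x‖ / ρ) :=
        mul_le_mul_of_nonneg_right h3 (by positivity)
    _ = c / ρ * ‖x‖ := by ring

end Pool.Agent.Lib.MP_0b6b0e_gt.ZB.H17
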